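import Pool.Agent.K6.H90.GB.Det
import Pool.Agent.Results.MP_33f996_nt.AllClassesRegularModuli

/-!
# Goldbach partitions with a prime in `(√(2 n), n)` in Bohr sets

Let `α`, `β` be any real numbers. For all `0 < ρ ≤ 1 / 10`, `A` and all large `x`: if `a / q` is a fraction of
Dirichlet's theorem for `α` at the level `x ^ (7 / 10 - ρ)`, that is `q ≤ x ^ (7 / 10 - ρ)` and
`|q α - a| ≤ x ^ (-(7 / 10 - ρ))`, and `x ^ (3 / 10 + 3 ρ) / q ≤ δ ≤ 1 / 2`, then the Bohr set of the even integers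
`2 n ≤ x` with `‖2 n α - β‖ ≤ δ` (it has at least `δ x / 16` members) contains at most the proportion
`(log x) ^ (-A)` of integers `2 n` for which the assertion of the problem, with at least `1 / 21` of the expected number
of primes, fails. For the numbers `α` of irrationality exponent `2` (almost all numbers, all irrational algebraic
numbers) this holds for `δ ≥ x ^ (-2 / 5 + ρ)`.

Definition used (in `Pool.Agent.H560R3.GB`): `sing m = 2 C₂ ∏_{p ∣ m, p > 2} (p - 1) / (p - 2)`, the singular series,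
where `C₂ = ∏_{p > 2} (1 - 1 / (p - 1) ^ 2)` is the twin prime constant.

Proof (`K6/H90/GB`). If `|q' α - p| x` is small compared with `q' δ` and `q' δ` is large, the Bohr set is covered by
`O(q' δ)` residue classes modulo `q'` and has `≫ δ x` even members. The theorem of the starting files
(`Pool.Agent.R460.GR.class_few_reg`) on the residue classes says nothing for the multiples of few large integers. We use
a family of approximations of `α`, the mediants with the denominators `u q₁ + q`, `u ≤ U = x ^ (ρ / 4)`, where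
`a₁ / q₁` is a neighbour of `a / q` and `q₁` is about `x ^ (7 / 10 - ρ)`; at least one of these denominators is not
divisible by one of these integers.
-/

set_option autoImplicit false

namespace Pool.Agent.Results.MP_33f996_nt.BohrSets

open Finset Filter
open Pool.Agent.H560R3.GB (sing)
open Pool.Agent.K6.H90.GB (ClassFew SumOK Conc inBohr)

/-- The number of the primes `p` with `√(2 n) < p < n` for which `2 n - p` is also a prime. -/
noncomputable def reps (n : ℕ) : ℕ :=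
  ((range n).filter (fun p : ℕ => p.Prime ∧ √(2 * (n : ℝ)) < p ∧ (2 * n - p).Prime)).card

/-- The expected number of these primes, `sing (2 n) n / (log (2 n))²`. -/
noncomputable def expected (n : ℕ) : ℝ := sing (2 * n) * (n / Real.log (2 * n) ^ 2)

/-- There is a prime `p` with `√(2 n) < p < n` for which `2 n - p` is also a prime (the assertion of the problem for
`n`), and the number of these primes is at least `1 / 21` of the expected number. -/
def Holds (n : ℕ) : Prop :=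
  (∃ p : ℕ, p.Prime ∧ (2 * n - p).Prime ∧ √(2 * (n : ℝ)) < p ∧ p < n) ∧ expected n / 21 ≤ reps n

/-- The Bohr set of the even integers `0 < m ≤ x` for which the distance of `α m - β` from some integer is at most
`δ`. -/
def bohr (x α β δ : ℝ) : Set ℕ :=
  {m : ℕ | 0 < m ∧ (m : ℝ) ≤ x ∧ 2 ∣ m ∧ ∃ j : ℤ, |α * m - β - j| ≤ δ}

lemma log_pow_le {ρ : ℝ} (hρ : 0 < ρ) (c : ℕ) : ∀ᶠ x : ℝ in atTop, Real.log x ^ c ≤ x ^ ρ := by
  have h := (isLittleO_log_rpow_rpow_atTop (c : ℝ) hρ).bound (show (0 : ℝ) < 1 by norm_num)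
  filter_upwards [h, eventually_ge_atTop 1] with x hx hx1
  have h1 : 0 ≤ Real.log x := Real.log_nonneg hx1
  rw [Real.rpow_natCast, one_mul, Real.norm_of_nonneg (pow_nonneg h1 c),
    Real.norm_of_nonneg (Real.rpow_nonneg (by linarith) ρ)] at hx
  exact hx

/-- the hypothesis of the theorem on Bohr sets -/
theorem hyp (ρ : ℝ) (hρ : 0 < ρ) (A : ℕ) :
    ∃ x₀ : ℝ, ∀ x : ℝ, x₀ ≤ x → ∃ D : Finset ℕ, SumOK D x (ρ / 4) ∧
      ∀ q : ℕ, 1 ≤ q → (q : ℝ) ≤ x ^ (7 / 10 - ρ / 4) → (∀ d ∈ D, ¬ d ∣ q) →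
        ClassFew (fun m => Holds (m / 2)) (A + 1) x q := by
  obtain ⟨c, h⟩ := Pool.Agent.R460.GR.class_few_reg (fun m => Holds (m / 2)) 1
    Pool.Agent.Results.MP_33f996_nt.AllClassesRegularModuli.holds_of (ρ / 4) (by linarith) (A + 1)
  obtain ⟨x₁, h⟩ := h (c + 1)
  obtain ⟨x₂, hx₂⟩ := eventually_atTop.1 (log_pow_le (show 0 < ρ / 4 by linarith) c)
  refine ⟨max (max x₁ x₂) (Real.exp 4), fun x hx => ?_⟩
  obtain ⟨D, hD1, hD2, hD3⟩ := h x ((le_max_left _ _).trans ((le_max_left _ _).trans hx))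
  have hV := hx₂ x ((le_max_right _ _).trans ((le_max_left _ _).trans hx))
  have hx4 : Real.exp 4 ≤ x := (le_max_right _ _).trans hx
  have hx0 : 0 < x := lt_of_lt_of_le (Real.exp_pos _) hx4
  have hl : 4 ≤ Real.log x := by rw [Real.le_log_iff_exp_le hx0]; exact hx4
  have hl0 : 0 < Real.log x := by linarith
  have hB0 : 0 < Real.log x ^ (c + 1) := by positivity
  refine ⟨D, ⟨?_, ?_⟩, ?_⟩
  · intro d hd
    have h1 := hD2 d hd
    have : (0 : ℝ) < d := by linarith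
    exact_mod_cast this
  · intro U M hU _ _ hUx
    refine Pool.Agent.K6.H90.GB.sum_b (V := Real.log x ^ c) hB0 ?_ hU hD2 hD1 (by linarith)
    rw [pow_succ']
    exact mul_le_mul_of_nonneg_right hl (by positivity)
  · intro q hq hqx hqD a
    obtain ⟨f1, f2⟩ := hD3 q hq hqx hqD a
    have e : {n : ℕ | 0 < n ∧ (n : ℝ) ≤ x ∧ (n : ℤ) ≡ a [ZMOD q] ∧ (2 ∣ n ∧ ¬ (fun m => Holds (m / 2)) n)} =
        {n : ℕ | 0 < n ∧ (n : ℝ) ≤ x ∧ 2 ∣ n ∧ (n : ℤ) ≡ a [ZMOD q] ∧ ¬ (fun m => Holds (m / 2)) n} := by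
      ext n
      constructor
      · rintro ⟨a1, a2, a3, a4, a5⟩
        exact ⟨a1, a2, a4, a3, a5⟩
      · rintro ⟨a1, a2, a3, a4, a5⟩
        exact ⟨a1, a2, a4, a3, a5⟩
    rw [e]
    exact ⟨f1, f2⟩

/-- For all `0 < ρ ≤ 1 / 10` and `A` there is `x₀` such that for all `x ≥ x₀`, all real `α`, `β`, `δ` and all coprime
integers `a`, `q` with `0 < q ≤ x ^ (7 / 10 - ρ)`, `|q α - a| ≤ x ^ (-(7 / 10 - ρ))` and
`x ^ (3 / 10 + 3 ρ) / q ≤ δ ≤ 1 / 2`: there are at least `δ x / 16` even integers `0 < m ≤ x` with `‖α m - β‖ ≤ δ`, and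
for all but at most the proportion `(log x) ^ (-A)` of them there is a prime `p` with `√m < p < m / 2` such that `m - p` is
prime, and the number of these primes is at least `1 / 21` of the expected number
`sing m (m / 2) / (log m)²`. -/
theorem result (ρ : ℝ) (hρ : 0 < ρ) (hρ1 : ρ ≤ 1 / 10) (A : ℕ) :
    ∃ x₀ : ℝ, ∀ x : ℝ, x₀ ≤ x → ∀ (α β δ : ℝ) (a : ℤ) (q : ℕ), 0 < q → IsCoprime a (q : ℤ) →
      (q : ℝ) ≤ x ^ (7 / 10 - ρ) → |(q : ℝ) * α - a| ≤ x ^ (-(7 / 10 - ρ)) →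
      x ^ (3 / 10 + 3 * ρ) / q ≤ δ → δ ≤ 1 / 2 →
        δ * x / 16 ≤ ((bohr x α β δ).ncard : ℝ) ∧
        (({m ∈ bohr x α β δ | ¬ Holds (m / 2)}.ncard : ℕ) : ℝ) ≤
          ((bohr x α β δ).ncard : ℝ) / Real.log x ^ A := by
  obtain ⟨x₀, h⟩ := Pool.Agent.K6.H90.GB.det (fun m => Holds (m / 2)) A (τ := 7 / 10) (by norm_num) hρ hρ1
    (hyp ρ hρ A)
  refine ⟨x₀, fun x hx α β δ a q hq hcop hqx hη hδ1 hδ2 => ?_⟩
  have e0 : (3 / 10 + 3 * ρ : ℝ) = 1 - 7 / 10 + 3 * ρ := by ring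
  rw [e0] at hδ1
  obtain ⟨c1, c2⟩ := h x hx α β δ a q hq hcop hqx hη hδ1 hδ2
  have e1 : inBohr (fun n => 2 ∣ n) x α β δ = bohr x α β δ := by
    ext n
    constructor
    · rintro ⟨a1, a2, a3, a4⟩
      exact ⟨a1, a2, a4, a3⟩
    · rintro ⟨a1, a2, a3, a4⟩
      exact ⟨a1, a2, a4, a3⟩
  have e2 : {m ∈ bohr x α β δ | ¬ Holds (m / 2)} ⊆ inBohr (fun n => 2 ∣ n ∧ ¬ (fun m => Holds (m / 2)) n) x α β δ := by
    rintro n ⟨⟨a1, a2, a3, a4⟩, a5⟩
    exact ⟨a1, a2, a4, a3, a5⟩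
  rw [e1] at c1 c2
  refine ⟨c1, le_trans ?_ c2⟩
  exact_mod_cast Set.ncard_le_ncard e2 (Pool.Agent.K6.H90.GB.inBohr_finite _ _ _ _ _)

end Pool.Agent.Results.MP_33f996_nt.BohrSets
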