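import Pool.Agent.K6.H45.DG.All
import Pool.Agent.K6.H45.RT.Parts

/-!
# Goldbach partitions with a prime in `(√(2 n), n)` near `u`, `u + v` or `u - v`, or prime pairs with
differences near `v`

Let `0 ≤ θ < 1`; the case `θ = 1 / 2` is the case of the problem.

Theorem. For all `ε, λ > 0` there is `κ > 0` such that for all large `x` and ALL `L`, `v` with
`λ log x ≤ L ≤ v ≤ x / 8 - L` at least one of the following holds.

(a) For EVERY `u` with `x ≤ u ≤ 2 x` the three intervals of length `L` which start at `u - v`, `u` and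
`u + v` together contain at least `(5 / 27 - ε) (L / 2)` even numbers `2 n` (with multiplicity) for which there
are at least `κ n / log² n` primes `p` with `(2 n) ^ θ < p < n` such that `2 n - p` is prime.

(b) At least the proportion `5 / 9 - ε` of the even numbers `h` with `v - L / 2 ≤ h < v + L / 2` satisfy: for at
least `κ x / log² x` of the primes `p` with `x ^ θ < p ≤ 3 x` the number `p + h` is prime.

So, without an exceptional set and at the scale `L = λ log x`: if the assertion of the problem fails for almost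
all even numbers of the three windows at `u - v`, `u`, `u + v`, for one single `u`, then most of the even numbers
near `v` are differences of the expected number of pairs of primes.

Proof. `K6/H45/DG` (coloured Maynard-Tao theorem with the constant `18 / 5` and the right order of magnitude,
hypergraph containers, Pollard's inequality); the primes up to `(2 n) ^ θ` are few, and one of the two primes of
a partition of `2 n` is less than `n` unless both are `n`.
-/

set_option autoImplicit false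

namespace Pool.Agent.Results.MP_33f996_nt.GoldbachOrDistantPrimePairs

open Filter Finset

open Classical in
/-- the number of the primes `p` with `(2 n) ^ θ < p < n` for which `2 n - p` is prime -/
noncomputable def partitions (θ : ℝ) (n : ℕ) : ℕ :=
  ((range n).filter (fun p : ℕ => p.Prime ∧ ((2 * n : ℕ) : ℝ) ^ θ < p ∧ (2 * n - p).Prime)).card

open Classical in
/-- the number of the `n` with `u ≤ 2 n < u + L` which have at least `κ n / log² n` such primes -/
noncomputable def goodPartitions (θ κ : ℝ) (u L : ℕ) : ℕ :=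
  ((range (u + L)).filter (fun n : ℕ => u ≤ 2 * n ∧ 2 * n < u + L ∧
    κ * (n / (Real.log n) ^ 2) ≤ (partitions θ n : ℝ))).card

open Classical in
/-- the number of the primes `p` with `x ^ θ < p ≤ 3 x` such that `p + h` is prime -/
noncomputable def primePairs (θ : ℝ) (x h : ℕ) : ℕ :=
  ((Icc 1 (3 * x)).filter (fun p : ℕ => p.Prime ∧ (x : ℝ) ^ θ < p ∧ (p + h).Prime)).card

open Classical in
/-- the number of the even `h` with `v - L / 2 ≤ h < v + L / 2` and at least `κ x / log² x` such primes -/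
noncomputable def goodDifferences (θ κ : ℝ) (x v L : ℕ) : ℕ :=
  ((Ico (v - L / 2) (v + L / 2)).filter (fun h : ℕ =>
    Even h ∧ κ * (x / (Real.log x) ^ 2) ≤ (primePairs θ x h : ℝ))).card

open Pool.Agent.K6.H45.DG (reps prs)
open Pool.Agent.K6.H45.RT.Parts (half_le card_le_real ev_small)

/-- most of the representations are partitions with a prime between `(2 n) ^ θ` and `n` -/
lemma reps_even (θ : ℝ) (n : ℕ) : (reps (2 * n) : ℝ) ≤ 2 * (partitions θ n + ((2 * n : ℕ) : ℝ) ^ θ) + 1 := by
  classical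
  obtain ⟨A, hA⟩ : ∃ A : Finset ℕ, A = (range n).filter (fun p : ℕ => p.Prime ∧ (2 * n - p).Prime) :=
    ⟨_, rfl⟩
  have h1 : (antidiagonal (2 * n)).filter (fun x => x.1.Prime ∧ x.2.Prime) ⊆
      A.image (fun p => (p, 2 * n - p)) ∪ (A.image (fun p => (2 * n - p, p)) ∪ {(n, n)}) := by
    rintro ⟨p, q⟩ hp
    rw [mem_filter, HasAntidiagonal.mem_antidiagonal] at hp
    obtain ⟨hpq, hp1, hq1⟩ := hp
    simp only at hpq hp1 hq1
    rw [mem_union, mem_union, mem_image, mem_image, mem_singleton, hA]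
    rcases lt_trichotomy p n with h | h | h
    · left
      refine ⟨p, ?_, ?_⟩
      · rw [mem_filter, mem_range]
        have : 2 * n - p = q := by omega
        rw [this]
        exact ⟨h, hp1, hq1⟩
      · have : 2 * n - p = q := by omega
        rw [this]
    · right
      right
      have h2 : q = n := by omega
      rw [h, h2]
    · right
      left
      refine ⟨q, ?_, ?_⟩
      · rw [mem_filter, mem_range]
        have : 2 * n - q = p := by omega
        rw [this]
        exact ⟨by omega, hq1, hp1⟩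
      · have : 2 * n - q = p := by omega
        rw [this]
  have h2 : reps (2 * n) ≤ A.card + (A.card + 1) := by
    unfold reps
    refine (card_le_card h1).trans ((card_union_le _ _).trans ?_)
    apply Nat.add_le_add card_image_le
    refine (card_union_le _ _).trans ?_
    rw [card_singleton]
    exact Nat.add_le_add_right card_image_le _
  have h3 : (A.card : ℝ) ≤ partitions θ n + ((2 * n : ℕ) : ℝ) ^ θ := by
    have h7 : partitions θ n = Pool.Agent.K6.H45.RT.Parts.parts θ n := rfl
    rw [hA, h7]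
    convert half_le θ n
  have h4 : (reps (2 * n) : ℝ) ≤ A.card + (A.card + 1) := by exact_mod_cast h2
  linarith

/-- most of the prime pairs have no small prime -/
lemma prs_le (θ : ℝ) (x h : ℕ) : (prs (3 * x) h : ℝ) ≤ primePairs θ x h + (x : ℝ) ^ θ := by
  classical
  have h1 : (Icc 1 (3 * x)).filter (fun p => p.Prime ∧ (p + h).Prime) ⊆
      (Icc 1 (3 * x)).filter (fun p : ℕ => p.Prime ∧ (x : ℝ) ^ θ < p ∧ (p + h).Prime) ∪
      (Icc 1 (3 * x)).filter (fun p : ℕ => (p : ℝ) ≤ (x : ℝ) ^ θ) := by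
    intro p hp
    rw [mem_filter] at hp
    rw [mem_union, mem_filter, mem_filter]
    rcases le_or_gt (p : ℝ) ((x : ℝ) ^ θ) with h | h
    · exact Or.inr ⟨hp.1, h⟩
    · exact Or.inl ⟨hp.1, hp.2.1, h, hp.2.2⟩
  have h2 := (card_le_card h1).trans (card_union_le _ _)
  have h3 := card_le_real ((Icc 1 (3 * x)).filter (fun p : ℕ => (p : ℝ) ≤ (x : ℝ) ^ θ))
    ((x : ℝ) ^ θ) (by positivity) (fun p hp => by
      rw [mem_filter, mem_Icc] at hp
      exact ⟨hp.1.1, hp.2⟩)
  have h4 : (prs (3 * x) h : ℝ) ≤ (primePairs θ x h : ℝ) +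
      (((Icc 1 (3 * x)).filter (fun p : ℕ => (p : ℝ) ≤ (x : ℝ) ^ θ)).card : ℝ) := by
    unfold prs primePairs
    exact_mod_cast h2
  linarith

lemma goodPartitions_of {θ κ κ' : ℝ} {u L N₀ : ℕ} (hu : N₀ ≤ u)
    (hlog : ∀ n : ℕ, N₀ ≤ 2 * n → κ' * ((n : ℝ) / Real.log n ^ 2) ≤
      (κ * (((2 * n : ℕ) : ℝ) / Real.log ((2 * n : ℕ) : ℝ) ^ 2) - 1) / 2 - ((2 * n : ℕ) : ℝ) ^ θ) :
    ((Ico u (u + L)).filter (fun w : ℕ => Even w ∧ κ * (w / (Real.log w) ^ 2) ≤ (reps w : ℝ))).card ≤
      goodPartitions θ κ' u L := by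
  classical
  unfold goodPartitions
  apply card_le_card_of_injOn (fun w : ℕ => w / 2)
  · intro w hw
    rw [mem_coe, mem_filter, mem_Ico] at hw
    obtain ⟨⟨h1, h2⟩, ⟨n, hn⟩, h3⟩ := hw
    have hw2 : w = 2 * n := by omega
    have hw3 : w / 2 = n := by omega
    rw [mem_coe, mem_filter, mem_range]
    simp only
    rw [hw3]
    refine ⟨by omega, by omega, by omega, ?_⟩
    rw [hw2] at h3
    have h4 := reps_even θ n
    have h5 := hlog n (by omega)
    linarith
  · intro w hw w' hw' he
    rw [mem_coe, mem_filter, mem_Ico] at hw hw'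
    obtain ⟨-, ⟨n, hn⟩, -⟩ := hw
    obtain ⟨-, ⟨n', hn'⟩, -⟩ := hw'
    simp only at he
    omega

/-- **Goldbach partitions with a prime in `((2 n) ^ θ, n)` near `u - v`, `u` or `u + v`, or prime pairs with
differences near `v`.** -/
theorem result : ∀ θ ε lam : ℝ, 0 ≤ θ → θ < 1 → 0 < ε → 0 < lam → ∃ κ : ℝ, 0 < κ ∧
    ∀ᶠ x : ℕ in atTop, ∀ L v : ℕ, lam * Real.log x ≤ L → L ≤ v → 8 * (v + L) ≤ x →
      (∀ u : ℕ, x ≤ u → u ≤ 2 * x →
        (5 / 27 - ε) * (L / 2) ≤ (goodPartitions θ κ u L : ℝ) + (goodPartitions θ κ (u + v) L : ℝ) +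
          (goodPartitions θ κ (u - v) L : ℝ)) ∨
      (5 / 9 - ε) * (L / 2) ≤ (goodDifferences θ κ x v L : ℝ) := by
  intro θ ε lam hθ hθ1 hε hlam
  obtain ⟨κ, hκ, h⟩ := Pool.Agent.K6.H45.DG.dicho ε lam hε hlam
  refine ⟨κ / 8, by positivity, ?_⟩
  obtain ⟨N₁, hN₁⟩ := eventually_atTop.1 ((ev_small θ (κ / 8) hθ1 (by positivity)).and
    (eventually_ge_atTop 4))
  have hlog : ∀ n : ℕ, 2 * N₁ + 8 ≤ 2 * n → κ / 8 * ((n : ℝ) / Real.log n ^ 2) ≤
      (κ * (((2 * n : ℕ) : ℝ) / Real.log ((2 * n : ℕ) : ℝ) ^ 2) - 1) / 2 - ((2 * n : ℕ) : ℝ) ^ θ := by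
    intro n hn
    obtain ⟨h1, h2⟩ := hN₁ n (by omega)
    have hnr : (4 : ℝ) ≤ n := by exact_mod_cast h2
    have hn0 : (0 : ℝ) < n := by linarith
    have hl : 0 < Real.log n := Real.log_pos (by linarith)
    have e1 : ((2 * n : ℕ) : ℝ) ^ θ ≤ (3 * (n : ℝ)) ^ θ := by
      apply Real.rpow_le_rpow (Nat.cast_nonneg _) _ hθ
      push_cast
      linarith
    have e2 : Real.log ((2 * n : ℕ) : ℝ) ≤ 2 * Real.log n := by
      have h3 : ((2 * n : ℕ) : ℝ) ≤ (n : ℝ) ^ 2 := by
        push_cast
        nlinarith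
      have h4 := Real.log_le_log (by push_cast; linarith) h3
      rw [Real.log_pow] at h4
      exact_mod_cast h4
    have e3 : 0 < Real.log ((2 * n : ℕ) : ℝ) := Real.log_pos (by push_cast; linarith)
    have e4 : (n : ℝ) / Real.log n ^ 2 / 2 ≤ ((2 * n : ℕ) : ℝ) / Real.log ((2 * n : ℕ) : ℝ) ^ 2 := by
      rw [div_div, div_le_div_iff₀ (by positivity) (by positivity)]
      push_cast
      have h5 : Real.log (2 * (n : ℝ)) ^ 2 ≤ 4 * Real.log n ^ 2 := by
        have : Real.log (2 * (n : ℝ)) ^ 2 ≤ (2 * Real.log n) ^ 2 := by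
          push_cast at e2 e3
          exact pow_le_pow_left₀ e3.le e2 2
        calc _ ≤ _ := this
          _ = _ := by ring
      nlinarith
    have hY : 0 ≤ (3 * (n : ℝ)) ^ θ := by positivity
    have e5 : κ * ((n : ℝ) / Real.log n ^ 2 / 2) ≤
        κ * (((2 * n : ℕ) : ℝ) / Real.log ((2 * n : ℕ) : ℝ) ^ 2) := mul_le_mul_of_nonneg_left e4 hκ.le
    have e6 : κ * ((n : ℝ) / Real.log n ^ 2 / 2) = 4 * (κ / 8 * ((n : ℝ) / Real.log n ^ 2)) := by ring
    rw [e6] at e5
    linarith
  filter_upwards [h, eventually_ge_atTop (4 * (2 * N₁ + 8))] with x hx hx2 L v hL hLv hvx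
  rcases hx L v hL hLv hvx with h1 | h1
  · left
    intro u hu hu2
    have h2 := h1 u hu hu2
    have c1 := goodPartitions_of (θ := θ) (κ := κ) (κ' := κ / 8) (u := u) (L := L) (by omega) hlog
    have c2 := goodPartitions_of (θ := θ) (κ := κ) (κ' := κ / 8) (u := u + v) (L := L) (by omega) hlog
    have c3 := goodPartitions_of (θ := θ) (κ := κ) (κ' := κ / 8) (u := u - v) (L := L) (by omega) hlog
    have c : _ ≤ ((goodPartitions θ (κ / 8) u L + goodPartitions θ (κ / 8) (u + v) L +
        goodPartitions θ (κ / 8) (u - v) L : ℕ) : ℝ) := Nat.cast_le.2 (Nat.add_le_add (Nat.add_le_add c1 c2) c3)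
    push_cast at c
    exact h2.trans c
  · right
    refine h1.trans ?_
    unfold goodDifferences
    rw [Nat.cast_le]
    apply card_le_card
    intro w hw
    rw [mem_filter] at hw ⊢
    refine ⟨hw.1, hw.2.1, ?_⟩
    have h2 := prs_le θ x w
    obtain ⟨h3, h4⟩ := hN₁ x (by omega)
    have hxr : (4 : ℝ) ≤ x := by exact_mod_cast h4
    have e1 : (x : ℝ) ^ θ ≤ (3 * (x : ℝ)) ^ θ := Real.rpow_le_rpow (by linarith) (by linarith) hθ
    have hY : 0 ≤ (3 * (x : ℝ)) ^ θ := by positivity
    have hX : 0 ≤ κ * (x / (Real.log x) ^ 2) := by positivity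
    linarith [hw.2.2]

end Pool.Agent.Results.MP_33f996_nt.GoldbachOrDistantPrimePairs
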