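import Pool.Agent.K6.H45.MV.Near
import Pool.Agent.Results.MP_33f996_nt.QuadraticValues

/-!
# Goldbach partitions with a prime between the square root and the half, for all even integers near almost all values of
real polynomials in several variables at points with restricted digits

Definitions used:
* in `Pool.Agent.H560R3.GB`: `sing m`: the singular series `2 C₂ ∏_{p ∣ m, p > 2} (p - 1) / (p - 2)`, where
  `C₂ = ∏_{p > 2} (1 - 1 / (p - 1) ^ 2)`;
* in `Pool.Agent.K6.H45.MV`: `RD b D k`: the integers below `b ^ k` whose `i`-th digit in base `b` lies in `D i`, for all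
  `i < k`; `Pts b D k`: the points `q` with `q j ∈ RD b (D j) k` for all the coordinates `j`.

Method: differencing over disjoint blocks of digits shows that the values of a real polynomial of degree `d ≥ 2` in
several variables at points with restricted digits have, up to a constant, the smallest possible additive energy of some
order. The passage from the energy to Goldbach representations is from the starting files
(`Pool.Agent.R459.near_even`).
-/

set_option autoImplicit false

namespace Pool.Agent.Results.MP_33f996_nt.PolynomialDigitPoints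

open Finset Pool.Agent.H560R3.GB Pool.Agent.K6.H45.MV

open Classical in
/-- The number of the primes `p` with `√m < p < m / 2` for which `m - p` is also a prime. -/
noncomputable def cnt (m : ℕ) : ℕ :=
  ((range m).filter (fun p : ℕ => p.Prime ∧ (m - p).Prime ∧ Real.sqrt m < p ∧ 2 * p < m)).card

/-- The number of the primes `p` with `y₁ < p ≤ y₂` for which `m - p` is also a prime. -/
def R (m y₁ y₂ : ℕ) : ℕ := ((Ioc y₁ y₂).filter (fun p => p.Prime ∧ (m - p).Prime)).card

/-- (1) There is a prime `p` with `√m < p < m / 2` for which `m - p` is also a prime, and the number of these primes is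
`(sing m / 2) m / log ^ 2 m` up to a relative error of at most `ε`; (2) for all windows `(y₁, y₂]` with
`√m ≤ y₁ < y₂ < m / 2` of length at least `m / log ^ A m` there is such a prime `p` with `y₁ < p ≤ y₂`, and the number of
these primes is `sing m (y₂ - y₁) / log ^ 2 m` up to a relative error of at most `ε`. -/
def Holds (ε : ℝ) (A m : ℕ) : Prop :=
  ((∃ p : ℕ, p.Prime ∧ (m - p).Prime ∧ Real.sqrt m < p ∧ 2 * p < m) ∧
    |(cnt m : ℝ) - sing m / 2 * (m / Real.log m ^ 2)| ≤ ε * (sing m / 2 * (m / Real.log m ^ 2))) ∧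
  ∀ y₁ y₂ : ℕ, y₁ < y₂ → Real.sqrt m ≤ y₁ → 2 * y₂ < m → (m : ℝ) / Real.log m ^ A ≤ (y₂ : ℝ) - y₁ →
    (∃ p : ℕ, y₁ < p ∧ p ≤ y₂ ∧ p.Prime ∧ (m - p).Prime) ∧
    |(R m y₁ y₂ : ℝ) - sing m * (((y₂ : ℝ) - y₁) / Real.log m ^ 2)| ≤ ε * (sing m * (((y₂ : ℝ) - y₁) / Real.log m ^ 2))

/-- `Holds` for all the even integers `m > 0` at a distance of at most `Q` from the real number `v`. -/
def Near (ε : ℝ) (A Q : ℕ) (v : ℝ) : Prop := ∀ m : ℕ, 0 < m → Even m → |(m : ℝ) - v| ≤ Q → Holds ε A m

/-- The value of the real polynomial `F` at the point `q`. -/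
noncomputable def value {r : ℕ} (F : MvPolynomial (Fin r) ℝ) (q : Fin r → ℕ) : ℝ := MvPolynomial.eval (fun j => (q j : ℝ)) F

lemma holds_of (ε : ℝ) (hε : 0 < ε) (A : ℕ) : ∃ m₀ : ℕ, ∀ m : ℕ, m₀ ≤ m → 2 ∣ m →
    Pool.Agent.W93.PG.WinP (min (min ε 1 / 4) (1 / 2)) A m → Holds ε A m := by
  obtain ⟨m₁, h1⟩ := QuadraticValues.holds_of ε hε
  refine ⟨m₁ + 3, fun m hm _ hw => ?_⟩
  obtain ⟨δ, hδ⟩ : ∃ δ : ℝ, δ = min (min ε 1 / 4) (1 / 2) := ⟨_, rfl⟩
  have hδ1 : δ ≤ min ε 1 / 4 := by rw [hδ]; exact min_le_left _ _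
  have hδ2 : δ ≤ 1 / 2 := by rw [hδ]; exact min_le_right _ _
  have hδ3 : δ ≤ ε := by
    have h2 : min ε 1 ≤ ε := min_le_left _ _
    have h3 : 0 < min ε 1 := lt_min hε one_pos
    linarith
  rw [← hδ] at hw
  have hmr : (3 : ℝ) ≤ m := by exact_mod_cast (by omega : 3 ≤ m)
  have hlog : 1 ≤ Real.log m := by
    rw [Real.le_log_iff_exp_le (by linarith)]
    linarith [Real.exp_one_lt_d9]
  have hsing := Pool.Agent.W93.GB.one_le_sing m
  have key : ∀ y₁ y₂ : ℕ, y₁ < y₂ → y₂ ≤ m → (m : ℝ) / Real.log m ^ A ≤ (y₂ : ℝ) - y₁ →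
      |(R m y₁ y₂ : ℝ) - sing m * (((y₂ : ℝ) - y₁) / Real.log m ^ 2)| ≤ δ * (sing m * (((y₂ : ℝ) - y₁) / Real.log m ^ 2)) := by
    intro y₁ y₂ hy hym hl
    have h2 : |(R m y₁ y₂ : ℝ) - sing m * ((y₂ : ℝ) - y₁) / Real.log m ^ 2| ≤
      δ * (sing m * ((y₂ : ℝ) - y₁) / Real.log m ^ 2) := hw y₁ y₂ hy hym hl
    have e1 : sing m * ((y₂ : ℝ) - y₁) / Real.log m ^ 2 = sing m * (((y₂ : ℝ) - y₁) / Real.log m ^ 2) := by ring
    rw [e1] at h2
    exact h2
  have hpos : ∀ y₁ y₂ : ℕ, y₁ < y₂ → 0 < sing m * (((y₂ : ℝ) - y₁) / Real.log m ^ 2) := by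
    intro y₁ y₂ hy
    have : (y₁ : ℝ) < y₂ := by exact_mod_cast hy
    apply mul_pos (by linarith)
    apply div_pos (by linarith) (by positivity)
  constructor
  · have h2 := key 0 m (by omega) le_rfl (by
      rw [Nat.cast_zero, sub_zero]
      exact div_le_self (by linarith) (one_le_pow₀ hlog))
    have hR : R m 0 m = g m := by
      unfold R g
      apply card_bij' (fun p _ => (p, m - p)) (fun q _ => q.1)
      · intro p hp
        rw [mem_filter, mem_Ioc] at hp
        rw [mem_filter, HasAntidiagonal.mem_antidiagonal]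
        exact ⟨by simp only; omega, hp.2⟩
      · intro q hq
        rw [mem_filter, HasAntidiagonal.mem_antidiagonal] at hq
        rw [mem_filter, mem_Ioc]
        obtain ⟨h1, h2, h3⟩ := hq
        have e : m - q.1 = q.2 := by omega
        rw [e]
        exact ⟨⟨h2.pos, by omega⟩, h2, h3⟩
      · intro p _
        rfl
      · intro q hq
        rw [mem_filter, HasAntidiagonal.mem_antidiagonal] at hq
        ext
        · rfl
        · simp only
          omega
    have hH : sing m * (((m : ℝ) - (0 : ℕ)) / Real.log m ^ 2) = HL m := by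
      unfold HL
      rw [Nat.cast_zero, sub_zero]
    rw [hR, hH] at h2
    have hHL0 : 0 ≤ HL m := by
      have := hpos 0 m (by omega)
      rw [hH] at this
      exact this.le
    have h3 := h1 m (by omega) (h2.trans (mul_le_mul_of_nonneg_right hδ1 hHL0))
    exact h3
  · intro y₁ y₂ hy _ hym hl
    have h2 := key y₁ y₂ hy (by omega) hl
    have h0 := hpos y₁ y₂ hy
    refine ⟨?_, h2.trans (mul_le_mul_of_nonneg_right hδ3 h0.le)⟩
    have h3 := h2.trans (mul_le_mul_of_nonneg_right hδ2 h0.le)
    have h4 : 0 < (R m y₁ y₂ : ℝ) := by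
      rw [abs_le] at h3
      linarith [h3.1]
    have h5 : 0 < R m y₁ y₂ := by exact_mod_cast h4
    unfold R at h5
    rw [card_pos] at h5
    obtain ⟨p, hp⟩ := h5
    rw [mem_filter, mem_Ioc] at hp
    exact ⟨p, hp.1.1, hp.1.2, hp.2.1, hp.2.2⟩

open Classical in
/-- Let the number of variables `r`, the base `b ≥ 2`, the degree `d ≥ 2` and `B`, `A`, `W`, `U` and `ε > 0` be fixed,
and let `k` be large. For every variable `j < r` and every position `i < k` let `D j i` be an arbitrary set of at least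
two digits in base `b`, and let `P` be the set of all the points `q` such that the coordinate `q j` is below `b ^ k` and
its `i`-th digit lies in `D j i`, for all `j < r` and `i < k`. Let `F` be an arbitrary polynomial in `r` variables with
real coefficients of total degree at most `d`, with some coefficient of degree `d` between `1 / B` and `B` in absolute
value, and with `F q ≤ B b ^ (d k)` on `P`. (For a fixed polynomial of degree `d` the last two conditions hold as soon
as `B` is large.) Then all the `q ∈ P`, except for at most `#P / k ^ U` of them, have the following property: for ALL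
the even integers `m > 0` at a distance of at most `k ^ W` from `F q` there is a prime `p` with `√m < p < m / 2` for
which `m - p` is also a prime; the number of these primes `p` lies between `(1 - ε)` and `(1 + ε)` times the expected
number `(sing m / 2) m / log ^ 2 m`; and the same holds in all windows `(y₁, y₂]` with `√m ≤ y₁ < y₂ < m / 2` and
`y₂ - y₁ ≥ m / log ^ A m`, with `sing m (y₂ - y₁) / log ^ 2 m` for the expected number. -/
theorem result (r b d B A W U : ℕ) (hb : 2 ≤ b) (hd : 2 ≤ d) (ε : ℝ) (hε : 0 < ε) :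
    ∃ k₀ : ℕ, ∀ k : ℕ, k₀ ≤ k →
      ∀ D : Fin r → ℕ → Finset ℕ, (∀ j, ∀ i < k, D j i ⊆ range b ∧ 2 ≤ (D j i).card) →
      ∀ F : MvPolynomial (Fin r) ℝ, F.totalDegree ≤ d →
      (∃ μ : Fin r →₀ ℕ, ∑ i, μ i = d ∧ 1 ≤ B * |F.coeff μ| ∧ |F.coeff μ| ≤ B) →
      (∀ q ∈ Pts b D k, value F q ≤ B * (b : ℝ) ^ (d * k)) →
      (((Pts b D k).filter (fun q => ¬ Near ε A (k ^ W) (value F q))).card : ℝ) ≤ (Pts b D k).card / (k : ℝ) ^ U := by
  obtain ⟨m₀, hm₀⟩ := holds_of ε hε A
  obtain ⟨k₀, h⟩ := near_poly (σ := Fin r) b d B A W U m₀ hb hd (min (min ε 1 / 4) (1 / 2))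
    (lt_min (by have := lt_min hε one_pos; positivity) (by norm_num)) (Holds ε A) (fun m hm h2 hw => hm₀ m hm h2 hw)
  refine ⟨k₀, fun k hk D hD F hF hμ hv => ?_⟩
  obtain ⟨μ, hμ1, hμ2, hμ3⟩ := hμ
  have hev : ∀ q : Fin r → ℕ, ev F (fun j => (q j : ℤ)) = value F q := by
    intro q
    unfold ev value
    simp only [Int.cast_natCast]
  refine h k hk D hD F hF μ hμ1 hμ2 hμ3 (fun q hq => by rw [hev]; exact hv q hq) _ ?_
  intro q hq
  unfold Near at hq
  push Not at hq
  obtain ⟨m, h1, h2, h3, h4⟩ := hq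
  exact ⟨m, h1, h2, by rw [hev]; push_cast at h3; exact h3, h4⟩

end Pool.Agent.Results.MP_33f996_nt.PolynomialDigitPoints
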