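import Pool.Agent.K6.H45.RT.All
import Pool.Agent.K6.H45.RT.Parts

/-!
# Goldbach partitions with a prime in `(√(2 n), n)`, or solutions of one of two other equations, in every
window of logarithmic length

Let `0 ≤ θ < 1`; the case `θ = 1 / 2` is the case of the problem.

Theorem. For all `ε, λ > 0` there is `κ > 0` such that for EVERY large `N` and EVERY `H` with
`λ log N ≤ H ≤ N / 50` the number of the `n` with `|2 n - 2 N| ≤ H` for which there are at least
`κ N / log² N` primes `p` with `(2 n) ^ θ < p < n` such that `2 n - p` is prime, plus the number of the `m` with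
`|m - N| ≤ H` for which `2 p - q = m` has at least `κ N / log² N` solutions in primes `p, q > N ^ θ`, plus the
number of the `m` with `|m - 3 N| ≤ H` for which `2 p + q = m` has that many, is at least
`(5 / 27 - ε) H`.

So for every large `N`, without an exceptional set and already for windows of the length `λ log N`, the
assertion of the problem holds, with the expected number of partitions up to a constant, for a positive
proportion of the integers of the window at `N`, or the same is true of one of two sister equations. The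
starting results on this problem have exceptional sets, and they say nothing about single short windows.

Proof. `K6/H45/RT` (coloured Maynard-Tao theorem of the starting files with the constant `18 / 5` and the right
order of magnitude for the forms `± n + c`, `± 2 n + c`, hypergraph containers, Pollard's inequality); the
solutions with a prime up to `N ^ θ` are few, and one of the two primes of a partition of `2 n` is less than `n`
unless both are `n`.
-/

set_option autoImplicit false

namespace Pool.Agent.Results.MP_33f996_nt.ThreeEquationsRightOrder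

open Filter Finset

open Classical in
/-- the number of the primes `p` with `(2 n) ^ θ < p < n` for which `2 n - p` is prime -/
noncomputable def partitions (θ : ℝ) (n : ℕ) : ℕ :=
  ((range n).filter (fun p : ℕ => p.Prime ∧ ((2 * n : ℕ) : ℝ) ^ θ < p ∧ (2 * n - p).Prime)).card

open Classical in
/-- the number of the integers `n` with `|2 n - 2 N| ≤ H` which have at least `κ N / log² N` such primes -/
noncomputable def goodPartitions (θ κ : ℝ) (N H : ℕ) : ℕ :=
  ((Icc (N - H) (N + H)).filter (fun n : ℕ => |2 * (n : ℤ) - 2 * N| ≤ H ∧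
    κ * (N / (Real.log N) ^ 2) ≤ (partitions θ n : ℝ))).card

open Classical in
/-- the number of the primes `p ≤ 2 N`, `p > N ^ θ`, such that `a p + b q = m` for some prime `q > N ^ θ` -/
noncomputable def solutions (θ : ℝ) (a b : ℤ) (N : ℕ) (m : ℤ) : ℕ :=
  ((Icc 1 (2 * N)).filter (fun p : ℕ => p.Prime ∧ (N : ℝ) ^ θ < p ∧
    ∃ q : ℕ, q.Prime ∧ (N : ℝ) ^ θ < q ∧ a * p + b * q = m)).card

open Classical in
/-- the number of the integers `m` with `|m - c N| ≤ H` for which `a p + b q = m` has at least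
`κ N / log² N` solutions in primes larger than `N ^ θ` -/
noncomputable def good (θ κ : ℝ) (N H : ℕ) (a b c : ℤ) : ℕ :=
  ((Icc (c * N - H) (c * N + H)).filter (fun m : ℤ =>
    κ * (N / (Real.log N) ^ 2) ≤ (solutions θ a b N m : ℝ))).card

open Pool.Agent.K6.H45.RT (WW)
open Pool.Agent.K6.H45.RT.Parts (sol sol_even sol_odd sol_le ev_small)

lemma good_of {θ κ κ' : ℝ} {N H : ℕ} (a b c : ℤ) (ha : a ≠ 0)
    (h : κ' * (N / (Real.log N) ^ 2) + 2 * (N : ℝ) ^ θ ≤ κ * (N / (Real.log N) ^ 2)) :
    (WW (κ * (N / (Real.log N) ^ 2)) N H a b c).card ≤ good θ κ' N H a b c := by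
  classical
  unfold good
  apply card_le_card
  intro m hm
  have hm' : m ∈ (Icc (c * N - H) (c * N + H)).filter (fun m : ℤ =>
      κ * (N / (Real.log N) ^ 2) ≤ (sol a b N m : ℝ)) := hm
  rw [mem_filter] at hm' ⊢
  refine ⟨hm'.1, ?_⟩
  have h1 := sol_le θ a b ha N m
  have h2 : Pool.Agent.K6.H45.RT.Parts.solT θ a b N m = solutions θ a b N m := rfl
  rw [← h2]
  linarith [hm'.2]

lemma goodPartitions_of {θ κ κ' : ℝ} {N H : ℕ} (hθ : 0 ≤ θ) (hH : 50 * H ≤ N) (hN : 1 ≤ N)
    (h : 2 * (κ' * (N / (Real.log N) ^ 2)) + 2 * (3 * (N : ℝ)) ^ θ + 3 ≤ κ * (N / (Real.log N) ^ 2))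
    (hκ' : 0 ≤ κ') :
    (WW (κ * (N / (Real.log N) ^ 2)) N H 1 1 2).card ≤ goodPartitions θ κ' N H := by
  classical
  have hX : 0 ≤ κ' * (N / (Real.log N) ^ 2) := by positivity
  have hY : 0 ≤ (3 * (N : ℝ)) ^ θ := by positivity
  have hmem : ∀ m ∈ WW (κ * (N / (Real.log N) ^ 2)) N H 1 1 2, 2 * (N : ℤ) - H ≤ m ∧ m ≤ 2 * N + H ∧
      κ * (N / (Real.log N) ^ 2) ≤ (sol 1 1 N m : ℝ) := by
    intro m hm
    have hm' : m ∈ (Icc (2 * (N : ℤ) - H) (2 * N + H)).filter (fun m : ℤ =>
        κ * (N / (Real.log N) ^ 2) ≤ (sol 1 1 N m : ℝ)) := hm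
    rw [mem_filter, mem_Icc] at hm'
    exact ⟨hm'.1.1, hm'.1.2, hm'.2⟩
  have heven : ∀ m ∈ WW (κ * (N / (Real.log N) ^ 2)) N H 1 1 2, (2 : ℤ) ∣ m := by
    intro m hm
    by_contra hcon
    have h1 := (hmem m hm).2.2
    have h2 : (sol 1 1 N m : ℝ) ≤ 2 := by exact_mod_cast sol_odd N m hcon
    linarith
  unfold goodPartitions
  apply card_le_card_of_injOn (fun m : ℤ => (m / 2).toNat)
  · intro m hm
    rw [mem_coe] at hm
    obtain ⟨h1, h2, h3⟩ := hmem m hm
    obtain ⟨t, ht⟩ := heven m hm
    have ht0 : 0 ≤ t := by omega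
    obtain ⟨n, hn⟩ := Int.eq_ofNat_of_zero_le ht0
    have hn2 : (m / 2).toNat = n := by omega
    rw [mem_coe, mem_filter, mem_Icc]
    simp only
    rw [hn2]
    refine ⟨⟨by omega, by omega⟩, ?_, ?_⟩
    · rw [abs_le]
      constructor <;> omega
    · have h4 : m = ((2 * n : ℕ) : ℤ) := by push_cast; omega
      rw [h4] at h3
      have h5 := sol_even θ N n
      have h6 : ((2 * n : ℕ) : ℝ) ^ θ ≤ (3 * (N : ℝ)) ^ θ := by
        apply Real.rpow_le_rpow (Nat.cast_nonneg _) _ hθ
        have : 2 * n ≤ 3 * N := by omega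
        exact_mod_cast this
      have h7 : Pool.Agent.K6.H45.RT.Parts.parts θ n = partitions θ n := rfl
      rw [← h7]
      linarith
  · intro m hm m' hm' he
    rw [mem_coe] at hm hm'
    obtain ⟨h1, h2, h3⟩ := hmem m hm
    obtain ⟨h1', h2', h3'⟩ := hmem m' hm'
    obtain ⟨t, ht⟩ := heven m hm
    obtain ⟨t', ht'⟩ := heven m' hm'
    simp only at he
    omega

/-- **Goldbach partitions with a prime in `((2 n) ^ θ, n)` or solutions of one of two other equations, with
the right order of magnitude, in every window of length `λ log N`.** For all `0 ≤ θ < 1`, `ε, λ > 0` there is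
`κ > 0` such that for EVERY large `N` and EVERY `H` with `λ log N ≤ H ≤ N / 50` the number of the `n` with
`|2 n - 2 N| ≤ H` and at least `κ N / log² N` primes `p` with `(2 n) ^ θ < p < n` and `2 n - p` prime, plus the
numbers of the `m` with `|m - N| ≤ H`, respectively `|m - 3 N| ≤ H`, for which `2 p - q = m`, respectively
`2 p + q = m`, has at least `κ N / log² N` solutions in primes larger than `N ^ θ`, is at least
`(5 / 27 - ε) H`. -/
theorem result : ∀ θ ε lam : ℝ, 0 ≤ θ → θ < 1 → 0 < ε → 0 < lam → ∃ κ : ℝ, 0 < κ ∧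
    ∀ᶠ N : ℕ in atTop, ∀ H : ℕ, lam * Real.log N ≤ H → 50 * H ≤ N →
      (5 / 27 - ε) * H ≤ (goodPartitions θ κ N H : ℝ) + (good θ κ N H 2 (-1) 1 : ℝ) +
        (good θ κ N H 2 1 3 : ℝ) := by
  intro θ ε lam hθ hθ1 hε hlam
  obtain ⟨κ, hκ, h⟩ := Pool.Agent.K6.H45.RT.three_final ε lam hε hlam
  refine ⟨κ / 4, by positivity, ?_⟩
  filter_upwards [h, ev_small θ (κ / 2) hθ1 (by positivity), eventually_ge_atTop 1] with N hN hN2 hN1 H hH1 hH2
  have h1 := hN H hH1 hH2
  have hNr : (1 : ℝ) ≤ N := by exact_mod_cast hN1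
  have hX : 0 ≤ κ * (N / (Real.log N) ^ 2) := by positivity
  have e1 : (N : ℝ) ^ θ ≤ (3 * (N : ℝ)) ^ θ := Real.rpow_le_rpow (by linarith) (by linarith) hθ
  have hY : 0 ≤ (3 * (N : ℝ)) ^ θ := by positivity
  have c1 := goodPartitions_of (θ := θ) (κ := κ) (κ' := κ / 4) hθ hH2 hN1 (by linarith) (by positivity)
  have c2 := good_of (θ := θ) (κ := κ) (κ' := κ / 4) (N := N) (H := H) 2 (-1) 1 (by norm_num) (by linarith)
  have c3 := good_of (θ := θ) (κ := κ) (κ' := κ / 4) (N := N) (H := H) 2 1 3 (by norm_num) (by linarith)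
  have c1' : ((WW (κ * (N / (Real.log N) ^ 2)) N H 1 1 2).card : ℝ) ≤ goodPartitions θ (κ / 4) N H := by
    exact_mod_cast c1
  have c2' : ((WW (κ * (N / (Real.log N) ^ 2)) N H 2 (-1) 1).card : ℝ) ≤ good θ (κ / 4) N H 2 (-1) 1 := by
    exact_mod_cast c2
  have c3' : ((WW (κ * (N / (Real.log N) ^ 2)) N H 2 1 3).card : ℝ) ≤ good θ (κ / 4) N H 2 1 3 := by
    exact_mod_cast c3
  linarith

end Pool.Agent.Results.MP_33f996_nt.ThreeEquationsRightOrder
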